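import Pool.Agent.helper7.AL.Spec

/-!
# Row LNV of project AL (MP_bf63dc_nt): fewer than `p` linear forms without fixed divisor `p` avoid `0` modulo `p`

PROOF.  Otherwise every `n < p` has a form `v = (s, x) ∈ R` with `p ∣ s n + x`.  As `#R < p`, two `n ≠ m` below `p` share the
same form, so `p ∣ s (n - m)`.  If `p ∣ s`, then `p ∣ x`, which is excluded; otherwise `p ∣ n - m`, so `n = m`.
-/

set_option autoImplicit false

namespace Pool.Agent.AL

open Finset

theorem LNV : LNV_stmt := by
  intro p R hp hR hv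
  by_contra hcon
  push Not at hcon
  choose f hfR hf using hcon
  obtain ⟨n, hn, m, hm, hnm, hfe⟩ := Finset.exists_ne_map_eq_of_card_lt_of_maps_to
    (s := range p) (t := R) (by rw [card_range]; exact hR) (f := f) (fun n _ => hfR n)
  have hP : Prime (p : ℤ) := Nat.prime_iff_prime_int.1 hp
  have h1 := hf n
  have h2 := hf m
  rw [← hfe] at h2
  have h3 : (p : ℤ) ∣ ((f n).1 : ℤ) * ((n : ℤ) - m) := by
    have h4 := dvd_sub h1 h2
    have h5 : ((f n).1 : ℤ) * n + (f n).2 - (((f n).1 : ℤ) * m + (f n).2) = ((f n).1 : ℤ) * ((n : ℤ) - m) := by ring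
    rwa [h5] at h4
  rcases hP.dvd_or_dvd h3 with h | h
  · refine hv (f n) (hfR n) (by exact_mod_cast h) ?_
    have h4 := dvd_sub h1 (h.mul_right (n : ℤ))
    have h5 : ((f n).1 : ℤ) * n + (f n).2 - ((f n).1 : ℤ) * n = (f n).2 := by ring
    rwa [h5] at h4
  · apply hnm
    rw [mem_range] at hn hm
    have h6 : ((n : ℤ) - m) = 0 := by
      apply Int.eq_zero_of_abs_lt_dvd h
      rw [abs_lt]
      constructor <;> omega
    omega

end Pool.Agent.AL
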