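import Pool.Agent.helper7.AL.SpecM

/-!
# Row MHS of project AL (MP_bf63dc_nt): the local solutions `g`, `g'` with `a g - b g' ≡ c'` modulo `m`

PROOF.  Bezout: all `(g₀ + b t, g₀' + a t)` solve `a g - b g' = c'`.  For every prime `l ∣ m` some `t` mod `l` makes both numbers
prime to `l` (`MHS_loc`), so some `t` does it for all `l ∣ m` (`MHS_crt`).  For the primes `l ∣ P`, `l ∤ m`, take one `h` with
`l ∤ h`, `l ∤ h + u₀`.  Finally `g ≡ g₁` mod `m`, `g ≡ h` mod the product of these `l`, the same for `g'`.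
-/

set_option autoImplicit false

namespace Pool.Agent.AL

open Finset

/-- Chinese remainder theorem for finitely many primes. -/
theorem MHS_crt (S : Finset ℕ) (hS : ∀ l ∈ S, l.Prime) (r : ℕ → ℤ) : ∃ t : ℤ, ∀ l ∈ S, (l : ℤ) ∣ t - r l := by
  classical
  induction S using Finset.induction_on with
  | empty => exact ⟨0, fun l hl => absurd hl (Finset.notMem_empty l)⟩
  | insert p S hpS ih =>
    obtain ⟨t', ht'⟩ := ih (fun l hl => hS l (Finset.mem_insert_of_mem hl))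
    have hp := hS p (Finset.mem_insert_self p S)
    have hcop : IsCoprime (((∏ l ∈ S, l : ℕ)) : ℤ) (p : ℤ) := by
      rw [Nat.isCoprime_iff_coprime]
      apply Nat.Coprime.symm
      rw [Nat.coprime_prod_right_iff]
      intro l hl
      rw [Nat.coprime_primes hp (hS l (Finset.mem_insert_of_mem hl))]
      rintro rfl
      exact hpS hl
    obtain ⟨a, b, hab⟩ := hcop
    refine ⟨t' + a * ((∏ l ∈ S, l : ℕ) : ℤ) * (r p - t'), ?_⟩
    intro l hl
    rw [Finset.mem_insert] at hl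
    rcases hl with rfl | hl
    · refine ⟨-(b * (r l - t')), ?_⟩
      linear_combination (r l - t') * hab
    · have hdl : (l : ℤ) ∣ a * ((∏ l ∈ S, l : ℕ) : ℤ) * (r p - t') := by
        have h4 : (l : ℤ) ∣ ((∏ l ∈ S, l : ℕ) : ℤ) := by
          exact_mod_cast Finset.dvd_prod_of_mem (fun l : ℕ => l) hl
        exact Dvd.dvd.mul_right (Dvd.dvd.mul_left h4 a) _
      have h5 : t' + a * ((∏ l ∈ S, l : ℕ) : ℤ) * (r p - t') - r l = (t' - r l) +
          a * ((∏ l ∈ S, l : ℕ) : ℤ) * (r p - t') := by ring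
      rw [h5]
      exact dvd_add (ht' l hl) hdl

theorem MHS_u {l : ℕ} (hl : l.Prime) (u₀ : ℤ) (hu : Even u₀) : ∃ r : ℤ, ¬ (l : ℤ) ∣ r ∧ ¬ (l : ℤ) ∣ r + u₀ := by
  have h1 : ¬ (l : ℤ) ∣ 1 := by
    intro h
    exact hl.one_lt.ne' (by exact_mod_cast Int.eq_one_of_dvd_one (by positivity) h)
  by_cases h : (l : ℤ) ∣ 1 + u₀
  · refine ⟨2, ?_, ?_⟩
    · intro h2
      have h3 : l ∣ 2 := by exact_mod_cast h2
      have h4 : l = 2 := (Nat.prime_dvd_prime_iff_eq hl Nat.prime_two).1 h3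
      subst h4
      obtain ⟨k, hk⟩ := hu
      have h5 : ((2 : ℕ) : ℤ) = 2 := rfl
      rw [h5, hk] at h
      omega
    · intro h2
      apply h1
      have h4 := dvd_sub h2 h
      have h5 : 2 + u₀ - (1 + u₀) = 1 := by ring
      rwa [h5] at h4
  · exact ⟨1, h1, h⟩

/-- Three values of `t` modulo a prime `l ≥ 3`: two linear conditions are avoided by one of them. -/
theorem MHS_two {l : ℕ} (hl : l.Prime) (h3 : l ≠ 2) (x y a b : ℤ) (ha : ¬ (l : ℤ) ∣ a) (hb : ¬ (l : ℤ) ∣ b) :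
    ∃ t : ℤ, ¬ (l : ℤ) ∣ x + b * t ∧ ¬ (l : ℤ) ∣ y + a * t := by
  have hP : Prime (l : ℤ) := Nat.prime_iff_prime_int.1 hl
  have hone : ¬ (l : ℤ) ∣ 1 := hP.not_dvd_one
  have htwo : ¬ (l : ℤ) ∣ 2 := by
    intro h
    exact h3 ((Nat.prime_dvd_prime_iff_eq hl Nat.prime_two).1 (by exact_mod_cast h))
  -- two different values among 0, 1, 2 cannot both be zeros of the same form
  have key : ∀ (w c s s' : ℤ), ¬ (l : ℤ) ∣ c → ¬ (l : ℤ) ∣ s - s' → (l : ℤ) ∣ w + c * s → ¬ (l : ℤ) ∣ w + c * s' := by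
    intro w c s s' hc hs h1 h2
    have h4 := dvd_sub h1 h2
    have h5 : w + c * s - (w + c * s') = c * (s - s') := by ring
    rw [h5] at h4
    rcases hP.dvd_or_dvd h4 with h | h
    · exact hc h
    · exact hs h
  have d01 : ¬ (l : ℤ) ∣ 0 - 1 := by
    intro h
    apply hone
    have := (dvd_neg (a := (l : ℤ))).2 h
    simpa using this
  have d02 : ¬ (l : ℤ) ∣ 0 - 2 := by
    intro h
    apply htwo
    have := (dvd_neg (a := (l : ℤ))).2 h
    simpa using this
  have d12 : ¬ (l : ℤ) ∣ 1 - 2 := by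
    intro h
    apply hone
    have := (dvd_neg (a := (l : ℤ))).2 h
    simpa using this
  by_contra hcon
  push Not at hcon
  have c0 := hcon 0
  have c1 := hcon 1
  have c2 := hcon 2
  by_cases x0 : (l : ℤ) ∣ x + b * 0
  · have x1 := key x b 0 1 hb d01 x0
    have x2 := key x b 0 2 hb d02 x0
    exact key y a 1 2 ha d12 (c1 x1) (c2 x2)
  · by_cases x1 : (l : ℤ) ∣ x + b * 1
    · have x2 := key x b 1 2 hb d12 x1
      exact key y a 0 2 ha d02 (c0 x0) (c2 x2)
    · exact key y a 0 1 ha d01 (c0 x0) (c1 x1)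

theorem MHS_loc {l : ℕ} (hl : l.Prime) (a b : ℕ) (c x y : ℤ) (hab : Nat.Coprime a b) (hac : IsCoprime (a : ℤ) c)
    (hbc : IsCoprime (b : ℤ) c) (hodd : ¬ (Odd a ∧ Odd b ∧ Odd c)) (he : a * x - b * y = c) :
    ∃ t : ℤ, ¬ (l : ℤ) ∣ x + b * t ∧ ¬ (l : ℤ) ∣ y + a * t := by
  have hP : Prime (l : ℤ) := Nat.prime_iff_prime_int.1 hl
  have hone : ¬ (l : ℤ) ∣ 1 := hP.not_dvd_one
  have hcop : ∀ {u v : ℤ}, IsCoprime u v → (l : ℤ) ∣ u → ¬ (l : ℤ) ∣ v := fun huv h1 h2 => hP.not_unit (huv.isUnit_of_dvd' h1 h2)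
  have hab' : IsCoprime (a : ℤ) (b : ℤ) := Nat.isCoprime_iff_coprime.2 hab
  by_cases ha : (l : ℤ) ∣ a
  · have hb : ¬ (l : ℤ) ∣ b := hcop hab' ha
    have hc : ¬ (l : ℤ) ∣ c := hcop hac ha
    have hy : ¬ (l : ℤ) ∣ y := by
      intro h
      apply hc
      rw [← he]
      exact dvd_sub (ha.mul_right x) (h.mul_left _)
    have hy' : ∀ t : ℤ, ¬ (l : ℤ) ∣ y + a * t := fun t h => hy ((dvd_add_left (ha.mul_right t)).1 h)
    by_cases hx : (l : ℤ) ∣ x + b * 0
    · refine ⟨1, fun h => ?_, hy' 1⟩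
      have h4 := dvd_sub h hx
      have h5 : x + (b : ℤ) * 1 - (x + b * 0) = b := by ring
      rw [h5] at h4
      exact hb h4
    · exact ⟨0, hx, hy' 0⟩
  · by_cases hb : (l : ℤ) ∣ b
    · have hc : ¬ (l : ℤ) ∣ c := hcop hbc hb
      have hx : ¬ (l : ℤ) ∣ x := by
        intro h
        apply hc
        rw [← he]
        exact dvd_sub (h.mul_left _) (hb.mul_right y)
      have hx' : ∀ t : ℤ, ¬ (l : ℤ) ∣ x + b * t := fun t h => hx ((dvd_add_left (hb.mul_right t)).1 h)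
      by_cases hy : (l : ℤ) ∣ y + a * 0
      · refine ⟨1, hx' 1, fun h => ?_⟩
        have h4 := dvd_sub h hy
        have h5 : y + (a : ℤ) * 1 - (y + a * 0) = a := by ring
        rw [h5] at h4
        exact ha h4
      · exact ⟨0, hx' 0, hy⟩
    · by_cases h2 : l = 2
      · subst h2
        have ha1 : ¬ (2 : ℤ) ∣ (a : ℤ) := ha
        have hb1 : ¬ (2 : ℤ) ∣ (b : ℤ) := hb
        have oa : Odd a := by
          rw [← Nat.not_even_iff_odd, even_iff_two_dvd]
          intro h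
          exact ha1 (by exact_mod_cast h)
        have ob : Odd b := by
          rw [← Nat.not_even_iff_odd, even_iff_two_dvd]
          intro h
          exact hb1 (by exact_mod_cast h)
        have ec : Even c := by
          rw [← Int.not_odd_iff_even]
          exact fun h => hodd ⟨oa, ob, h⟩
        obtain ⟨a', ha'⟩ := oa
        obtain ⟨b', hb'⟩ := ob
        obtain ⟨c', hc'⟩ := ec
        have hxy : (2 : ℤ) ∣ x - y := by
          refine ⟨c' + b' * y - a' * x, ?_⟩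
          have e1 : (a : ℤ) = 2 * a' + 1 := by exact_mod_cast ha'
          have e2 : (b : ℤ) = 2 * b' + 1 := by exact_mod_cast hb'
          rw [e1, e2, hc'] at he
          linear_combination he
        show ∃ t : ℤ, ¬ (2 : ℤ) ∣ x + b * t ∧ ¬ (2 : ℤ) ∣ y + a * t
        by_cases hx : (2 : ℤ) ∣ x
        · have hy : (2 : ℤ) ∣ y := by
            have := dvd_sub hx hxy
            simpa using this
          refine ⟨1, fun h => hb1 ?_, fun h => ha1 ?_⟩
          · have := dvd_sub h hx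
            have e : x + (b : ℤ) * 1 - x = b := by ring
            rwa [e] at this
          · have := dvd_sub h hy
            have e : y + (a : ℤ) * 1 - y = a := by ring
            rwa [e] at this
        · refine ⟨0, fun h => hx ?_, fun h => hx ?_⟩
          · simpa using h
          · have h' : (2 : ℤ) ∣ y := by simpa using h
            have := dvd_add hxy h'
            simpa using this
      · exact MHS_two hl h2 x y a b ha hb

theorem MHS : MHS_stmt := by
  classical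
  intro m P a b u₀ c' hm hP hu hPoss
  obtain ⟨ha, hb, hc0, hab, hac, hbc, hodd⟩ := hPoss
  have hab' : IsCoprime (a : ℤ) (b : ℤ) := Nat.isCoprime_iff_coprime.2 hab
  have hue : Even u₀ := by
    rw [even_iff_two_dvd]
    refine dvd_trans ?_ hu
    push_cast
    exact Dvd.intro _ rfl
  have hmu : (m : ℤ) ∣ u₀ := by
    refine dvd_trans ?_ hu
    push_cast
    exact Dvd.intro_left _ rfl
  -- an exact solution
  obtain ⟨s, s', hs⟩ := hab'
  have he0 : (a : ℤ) * (s * c') - b * (-(s' * c')) = c' := by linear_combination c' * hs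
  -- choice of `t`
  have hloc : ∀ l : ℕ, l.Prime → ∃ t : ℤ, ¬ (l : ℤ) ∣ s * c' + b * t ∧ ¬ (l : ℤ) ∣ -(s' * c') + a * t := fun l hl =>
    MHS_loc hl a b c' _ _ hab hac hbc hodd he0
  have hloc' : ∀ l : ℕ, ∃ t : ℤ, l.Prime → ¬ (l : ℤ) ∣ s * c' + b * t ∧ ¬ (l : ℤ) ∣ -(s' * c') + a * t := by
    intro l
    by_cases hl : l.Prime
    · obtain ⟨t, ht⟩ := hloc l hl
      exact ⟨t, fun _ => ht⟩
    · exact ⟨0, fun h => absurd h hl⟩
  choose r hr using hloc'
  obtain ⟨t, ht⟩ := MHS_crt m.primeFactors (fun l hl => Nat.prime_of_mem_primeFactors hl) r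
  set g₁ : ℤ := s * c' + b * t with hg₁
  set g₂ : ℤ := -(s' * c') + a * t with hg₂
  have he1 : (a : ℤ) * g₁ - b * g₂ = c' := by rw [hg₁, hg₂]; linear_combination he0
  have hg : ∀ l : ℕ, l.Prime → l ∣ m → ¬ (l : ℤ) ∣ g₁ ∧ ¬ (l : ℤ) ∣ g₂ := by
    intro l hl hlm
    have h1 := ht l (Nat.mem_primeFactors.2 ⟨hl, hlm, by omega⟩)
    obtain ⟨h2, h3⟩ := hr l hl
    constructor
    · intro h
      apply h2
      have h4 := dvd_sub h (h1.mul_left (b : ℤ))
      have h5 : g₁ - (b : ℤ) * (t - r l) = s * c' + b * r l := by rw [hg₁]; ring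
      rwa [h5] at h4
    · intro h
      apply h3
      have h4 := dvd_sub h (h1.mul_left (a : ℤ))
      have h5 : g₂ - (a : ℤ) * (t - r l) = -(s' * c') + a * r l := by rw [hg₂]; ring
      rwa [h5] at h4
  -- the other primes
  have hu' : ∀ l : ℕ, ∃ h : ℤ, l.Prime → ¬ (l : ℤ) ∣ h ∧ ¬ (l : ℤ) ∣ h + u₀ := by
    intro l
    by_cases hl : l.Prime
    · obtain ⟨h, hh⟩ := MHS_u hl u₀ hue
      exact ⟨h, fun _ => hh⟩
    · exact ⟨0, fun h => absurd h hl⟩
  choose q hq using hu'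
  set S : Finset ℕ := P.primeFactors.filter (fun l => ¬ l ∣ m) with hS
  have hSp : ∀ l ∈ S, l.Prime := fun l hl => Nat.prime_of_mem_primeFactors (mem_filter.1 hl).1
  obtain ⟨h, hh⟩ := MHS_crt S hSp q
  have hcop : IsCoprime (m : ℤ) ((∏ l ∈ S, l : ℕ) : ℤ) := by
    rw [Nat.isCoprime_iff_coprime, Nat.coprime_prod_right_iff]
    intro l hl
    exact Nat.Coprime.symm ((hSp l hl).coprime_iff_not_dvd.2 (mem_filter.1 hl).2)
  obtain ⟨v, w, hvw⟩ := hcop
  set M : ℤ := ((∏ l ∈ S, l : ℕ) : ℤ) with hM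
  have hSM : ∀ l ∈ S, (l : ℤ) ∣ M := by
    intro l hl
    rw [hM]
    exact_mod_cast Finset.dvd_prod_of_mem (fun l : ℕ => l) hl
  -- combination: `comb x ≡ x` mod `m`, `≡ h` mod `M`
  have hc1 : ∀ x : ℤ, (m : ℤ) ∣ (x * (w * M) + h * (v * m)) - x := by
    intro x
    refine ⟨v * (h - x), ?_⟩
    linear_combination x * hvw
  have hc2 : ∀ x : ℤ, M ∣ (x * (w * M) + h * (v * m)) - h := by
    intro x
    refine ⟨w * (x - h), ?_⟩
    linear_combination h * hvw
  have htr : ∀ (d x y : ℤ), d ∣ x - y → d ∣ x → d ∣ y := by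
    intro d x y h1 h2
    have := dvd_sub h2 h1
    simpa using this
  have hfin : ∀ x : ℤ, (∀ l : ℕ, l.Prime → l ∣ m → ¬ (l : ℤ) ∣ x) → ∀ l : ℕ, l.Prime → l ∣ m * P →
      ¬ (l : ℤ) ∣ (x * (w * M) + h * (v * m)) ∧ ¬ (l : ℤ) ∣ (x * (w * M) + h * (v * m)) + u₀ := by
    intro x hx l hl hlmP
    by_cases hlm : l ∣ m
    · have hlm' : (l : ℤ) ∣ m := by exact_mod_cast hlm
      have h1 := hlm'.trans (hc1 x)
      have h2 : (l : ℤ) ∣ u₀ := hlm'.trans hmu
      refine ⟨fun h3 => hx l hl hlm (htr _ _ _ h1 h3), fun h3 => hx l hl hlm (htr _ _ _ h1 ?_)⟩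
      exact (dvd_add_left h2).1 h3
    · have hlP : l ∣ P := (hl.dvd_mul.1 hlmP).resolve_left hlm
      have hlS : l ∈ S := mem_filter.2 ⟨Nat.mem_primeFactors.2 ⟨hl, hlP, by omega⟩, hlm⟩
      have h1 := (hSM l hlS).trans (hc2 x)
      have h2 := hh l hlS
      have h4 : (l : ℤ) ∣ (x * (w * M) + h * (v * m)) - q l := by
        have := dvd_add h1 h2
        have e : (x * (w * M) + h * (v * m)) - h + (h - q l) = (x * (w * M) + h * (v * m)) - q l := by ring
        rwa [e] at this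
      obtain ⟨h5, h6⟩ := hq l hl
      refine ⟨fun h3 => h5 (htr _ _ _ h4 h3), fun h3 => h6 (htr _ _ _ ?_ h3)⟩
      have e : (x * (w * M) + h * (v * m)) + u₀ - (q l + u₀) = (x * (w * M) + h * (v * m)) - q l := by ring
      rw [e]
      exact h4
  refine ⟨g₁ * (w * M) + h * (v * m), g₂ * (w * M) + h * (v * m), ?_, fun l hl hlmP => ?_⟩
  · have h1 := dvd_sub ((hc1 g₁).mul_left (a : ℤ)) ((hc1 g₂).mul_left (b : ℤ))
    have e : (a : ℤ) * (g₁ * (w * M) + h * (v * m) - g₁) - b * (g₂ * (w * M) + h * (v * m) - g₂) =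
        a * (g₁ * (w * M) + h * (v * m)) - b * (g₂ * (w * M) + h * (v * m)) - c' := by
      linear_combination -he1
    rwa [e] at h1
  · obtain ⟨p1, p2⟩ := hfin g₁ (fun l hl hlm => (hg l hl hlm).1) l hl hlmP
    obtain ⟨p3, p4⟩ := hfin g₂ (fun l hl hlm => (hg l hl hlm).2) l hl hlmP
    exact ⟨p1, p2, p3, p4⟩

end Pool.Agent.AL
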